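import Mathlib

/-!
# A special wide Aronszajn tree which does not embed into any omega_1-tree

We construct in ZFC a normal tree of height `omega_1`, with levels of size at most `aleph_1`,
which is special (hence has no uncountable branch and is specialized by the trivial forcing),
all of whose finite levels are countable and whose level `omega` is uncountable.  No such tree
embeds into a tree all of whose levels are countable.
-/

namespace Pool.Agent.Results.MP_6e75db_lc.SpecialNotEmbeddable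

open Ordinal Cardinal Set

universe u v

/-- A tree: the (strict) predecessors of every node form a well-order. -/
def IsTree (T : Type u) [PartialOrder T] : Prop :=
  ∀ t : T, IsWellOrder {s : T // s < t} (· < ·)

/-- The node `t` is on level `α`: its predecessor set has order type `α`. -/
def OnLevel {T : Type u} [PartialOrder T] (t : T) (α : Ordinal.{u}) : Prop :=
  ∃ h : IsWellOrder {s : T // s < t} (· < ·), @Ordinal.type {s : T // s < t} (· < ·) h = α

/-- The level `T_α`. -/
def Level (T : Type u) [PartialOrder T] (α : Ordinal.{u}) : Set T := {t | OnLevel t α}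

/-- The height of the tree `T` is `η`: the least `α` with `T_α` empty is `η`. -/
def HasHeight (T : Type u) [PartialOrder T] (η : Ordinal.{u}) : Prop :=
  Level T η = ∅ ∧ ∀ α < η, (Level T α).Nonempty

/-- Normality of a tree of height `η`: one root, every node is comparable with some node on
every level below the height, and two distinct nodes on a limit level `α` differ in their
projections to some level `β < α`. -/
def Normal (T : Type u) [PartialOrder T] (η : Ordinal.{u}) : Prop :=
  (∃! r : T, r ∈ Level T 0) ∧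
  (∀ t : T, ∀ α < η, ∃ s ∈ Level T α, s ≤ t ∨ t ≤ s) ∧
  (∀ α : Ordinal.{u}, Order.IsSuccLimit α → ∀ s ∈ Level T α, ∀ t ∈ Level T α, s ≠ t →
    ∃ β < α, ∃ s' ∈ Level T β, ∃ t' ∈ Level T β, s' ≤ s ∧ t' ≤ t ∧ s' ≠ t')

/-- An `(ω₁, ≤ ℵ₁)`-Aronszajn tree: a normal tree of height `ω₁` whose levels have size at most
`ℵ₁` and which has no branch (maximal chain) of size `ℵ₁`. -/
def IsWideAronszajn (T : Type u) [PartialOrder T] : Prop :=
  IsTree T ∧ HasHeight T ω₁ ∧ Normal T ω₁ ∧ (∀ α : Ordinal.{u}, #(Level T α) ≤ ℵ₁) ∧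
    ∀ C : Set T, IsMaxChain (· ≤ ·) C → #C ≠ ℵ₁

/-- An `ω₁`-tree: a tree of height `ω₁` all of whose levels are countable.  (Normality is not
imposed here, which makes non-embeddability into all `ω₁`-trees a stronger property.) -/
def IsOmegaOneTree (T : Type u) [PartialOrder T] : Prop :=
  IsTree T ∧ HasHeight T ω₁ ∧ ∀ α : Ordinal.{u}, (Level T α).Countable

/-- A tree is special if it is the union of countably many antichains. -/
def Special (T : Type u) [PartialOrder T] : Prop :=
  ∃ A : ℕ → Set T, (∀ n, IsAntichain (· ≤ ·) (A n)) ∧ (⋃ n, A n) = Set.univ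

/-- `S` embeds into `T`: there is an injection preserving the strict order in both directions. -/
def Embeds (S : Type u) [PartialOrder S] (T : Type v) [PartialOrder T] : Prop :=
  ∃ e : S → T, Function.Injective e ∧ ∀ s s' : S, s < s' ↔ e s < e s'

/-- For a forcing notion `P` (smaller conditions are stronger), a condition `p` and a set `D` of
conditions: `p` forces that the generic filter meets `D`. -/
def FMeets {P : Type v} [PartialOrder P] (p : P) (D : Set P) : Prop :=
  ∀ q ≤ p, ∃ r ≤ q, ∃ d ∈ D, r ≤ d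

/-- `p` forces that the generic filter does not meet `D`. -/
def FMisses {P : Type v} [PartialOrder P] (p : P) (D : Set P) : Prop :=
  ∀ q ≤ p, ¬ ∃ d ∈ D, q ≤ d

/-- `P` adds no new reals: a name for a subset of `ℕ` is a map `σ : ℕ → Set P` (`n` is in the
named real iff the generic filter meets `σ n`); every name is forced to be equal to
a ground model set below some condition extending any given one. -/
def NoNewReals (P : Type v) [PartialOrder P] : Prop :=
  ∀ σ : ℕ → Set P, ∀ p : P, ∃ q ≤ p, ∃ A : Set ℕ,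
    (∀ n ∈ A, FMeets q (σ n)) ∧ (∀ n ∉ A, FMisses q (σ n))

/-- `P` makes `T` special in every generic extension: there is a name `τ` for a map from `T` to
`ℕ` (it maps `t` to `n` iff the generic filter meets `τ t n`), forced by every condition to be a
total function whose values at comparable distinct nodes are different. -/
def ForcesSpecial (P : Type v) [PartialOrder P] (T : Type u) [PartialOrder T] : Prop :=
  ∃ τ : T → ℕ → Set P,
    (∀ t : T, ∀ p : P, FMeets p (⋃ n, τ t n)) ∧
    (∀ t : T, ∀ m n : ℕ, m ≠ n → ∀ p : P, FMeets p (τ t m) → FMisses p (τ t n)) ∧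
    (∀ s t : T, s < t → ∀ n : ℕ, ∀ p : P, FMeets p (τ s n) → FMisses p (τ t n))

/-- `T` can be specialized without adding reals. -/
def SpecializableWithoutReals (T : Type u) [PartialOrder T] : Prop :=
  ∃ (P : Type) (_ : PartialOrder P), Nonempty P ∧ NoNewReals P ∧ ForcesSpecial P T


/-! ### General facts on trees -/

section trees

variable {T : Type u} [PartialOrder T]

theorem onLevel_unique {t : T} {α β : Ordinal.{u}} (h : OnLevel t α) (h' : OnLevel t β) :
    α = β := by
  obtain ⟨h, rfl⟩ := h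
  obtain ⟨h', rfl⟩ := h'
  rfl

theorem exists_onLevel (hT : IsTree T) (t : T) : ∃ α, OnLevel t α := ⟨_, hT t, rfl⟩

theorem onLevel_of_lt {s t : T} (hst : s < t) {α β : Ordinal.{u}} (hs : OnLevel s α)
    (ht : OnLevel t β) : α < β := by
  obtain ⟨h, rfl⟩ := hs
  obtain ⟨h', rfl⟩ := ht
  have h1 : @Ordinal.type {x : T // x < s} (· < ·) h
      = @typein {x : T // x < t} (· < ·) h' ⟨s, hst⟩ := by
    rw [← type_subrel]
    refine Ordinal.type_eq.2 ⟨?_⟩
    refine ⟨⟨fun x => ⟨⟨x.1, x.2.trans hst⟩, x.2⟩, fun x => ⟨x.1.1, x.2⟩, fun x => rfl,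
      fun x => rfl⟩, ?_⟩
    intro a b
    rfl
  rw [h1]
  exact typein_lt_type _ _

theorem exists_lt_onLevel {t : T} {α β : Ordinal.{u}} (ht : OnLevel t β) (hα : α < β) :
    ∃ s < t, OnLevel s α := by
  obtain ⟨h', rfl⟩ := ht
  let a := @enum {x : T // x < t} (· < ·) h' ⟨α, hα⟩
  have ha : @typein {x : T // x < t} (· < ·) h' a = α := typein_enum _ hα
  rw [← type_subrel] at ha
  have e : (fun x y : {x : T // x < a.1} => x < y) ≃r
      (Subrel (fun x y : {x : T // x < t} => x < y) (fun b => b < a)) := by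
    refine ⟨⟨fun x => ⟨⟨x.1, x.2.trans a.2⟩, x.2⟩, fun x => ⟨x.1.1, x.2⟩, fun x => rfl,
      fun x => rfl⟩, ?_⟩
    intro a b
    rfl
  haveI : IsWellOrder {x : T // x < a.1} (· < ·) := e.toRelEmbedding.isWellOrder
  refine ⟨a.1, a.2, this, ?_⟩
  rw [← ha]
  exact Ordinal.type_eq.2 ⟨e⟩

theorem lt_of_hasHeight (hT : IsTree T) {η : Ordinal.{u}} (hη : HasHeight T η) {t : T}
    {α : Ordinal.{u}} (ht : OnLevel t α) : α < η := by
  by_contra hcon
  push Not at hcon
  rcases hcon.lt_or_eq with hlt | heq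
  · obtain ⟨s, _, hs⟩ := exists_lt_onLevel ht hlt
    have : s ∈ Level T η := hs
    rw [hη.1] at this
    exact this
  · subst heq
    have : t ∈ Level T η := ht
    rw [hη.1] at this
    exact this

theorem lt_of_common (hT : IsTree T) {t x y : T} (hx : x < t) (hy : y < t) {α β : Ordinal.{u}}
    (hxα : OnLevel x α) (hyβ : OnLevel y β) (hαβ : α < β) : x < y := by
  haveI := hT t
  rcases @trichotomous {s : T // s < t} (· < ·) _ ⟨x, hx⟩ ⟨y, hy⟩ with h | h | h
  · exact h
  · have : x = y := congrArg Subtype.val h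
    subst this
    exact absurd (onLevel_unique hxα hyβ) hαβ.ne
  · have : y < x := h
    exact absurd (onLevel_of_lt this hyβ hxα) hαβ.asymm

theorem countable_Iio_of_lt {δ : Ordinal.{u}} (h : δ < ω₁) : (Set.Iio δ).Countable := by
  rw [← Cardinal.le_aleph0_iff_set_countable, Cardinal.mk_Iio_ordinal]
  have h3 : δ.card < ℵ₁ := by
    rw [← Cardinal.lt_ord, Cardinal.ord_aleph]
    exact h
  have h4 : δ.card ≤ ℵ₀ := by
    rw [← Order.lt_succ_iff, Cardinal.succ_aleph0]
    exact h3
  simpa using Cardinal.lift_le.{u + 1}.2 h4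

theorem succ_lt_omega_one {δ : Ordinal.{u}} (h : δ < ω₁) : Order.succ δ < ω₁ :=
  (Cardinal.isSuccLimit_omega 1).succ_lt h

theorem not_embeds {S : Type v} [PartialOrder S] (hT : IsOmegaOneTree T) (F L : Set S)
    (hF : F.Countable) (hL : ¬ L.Countable)
    (hsep : ∀ s ∈ L, ∀ s' ∈ L, s ≠ s' → ∃ x ∈ F, (x < s ∧ ¬ x < s')) :
    ¬ Embeds S T := by
  rintro ⟨e, he, hlt⟩
  obtain ⟨hTt, hTη, hTc⟩ := hT
  choose lv hlv using fun t : T => exists_onLevel hTt t
  have hlvω : ∀ t, lv t < ω₁ := fun t => lt_of_hasHeight hTt hTη (hlv t)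
  haveI : Countable F := hF
  obtain ⟨δ, hδω, hδ⟩ : ∃ δ < ω₁, ∀ x ∈ F, lv (e x) < δ := by
    refine ⟨⨆ x : F, Order.succ (lv (e x.1)), ?_, ?_⟩
    · apply Ordinal.iSup_lt_omega_one
      intro x
      exact succ_lt_omega_one (hlvω _)
    · intro x hx
      have : Order.succ (lv (e x)) ≤ ⨆ x : F, Order.succ (lv (e x.1)) :=
        Ordinal.le_iSup (fun x : F => Order.succ (lv (e x.1))) ⟨x, hx⟩
      exact (Order.lt_succ _).trans_le this
  -- the part of the tree of height at most δ is countable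
  have hcδ : {t : T | lv t ≤ δ}.Countable := by
    have h1 : (Set.Iic δ).Countable := by
      have h5 : Set.Iic δ = Set.Iio (Order.succ δ) := by
        ext x; simp
      rw [h5]
      exact countable_Iio_of_lt (succ_lt_omega_one hδω)
    have h2 : {t : T | lv t ≤ δ} ⊆ ⋃ α ∈ Set.Iic δ, Level T α := by
      intro t ht
      simp only [Set.mem_iUnion]
      exact ⟨lv t, ht, hlv t⟩
    exact (h1.biUnion fun α _ => hTc α).mono h2
  let L' : Set S := {s ∈ L | δ < lv (e s)}
  have hL' : ¬ L'.Countable := by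
    intro hcon
    apply hL
    have h1 : L ⊆ L' ∪ e ⁻¹' {t : T | lv t ≤ δ} := by
      intro s hs
      by_cases h : δ < lv (e s)
      · exact Or.inl ⟨hs, h⟩
      · exact Or.inr (not_lt.1 h)
    exact (hcon.union (hcδ.preimage he)).mono h1
  have hproj : ∀ s : S, ∃ u : T, s ∈ L' → (u < e s ∧ OnLevel u δ) := by
    intro s
    by_cases h : s ∈ L'
    · obtain ⟨u, hu, hu'⟩ := exists_lt_onLevel (hlv (e s)) h.2
      exact ⟨u, fun _ => ⟨hu, hu'⟩⟩
    · exact ⟨e s, fun h' => absurd h' h⟩
  choose g hg using hproj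
  have hninj : ¬ Set.InjOn g L' := by
    intro hinj
    apply hL'
    have hm : Set.MapsTo g L' (Level T δ) := fun s hs => (hg s hs).2
    exact Set.MapsTo.countable_of_injOn hm hinj (hTc δ)
  rw [Set.InjOn] at hninj
  push Not at hninj
  obtain ⟨s, hs, s', hs', hgs, hne⟩ := hninj
  obtain ⟨x, hxF, hxs, hxs'⟩ := hsep s hs.1 s' hs'.1 hne
  have h1 : e x < e s := (hlt _ _).1 hxs
  have h2 : e x < g s := lt_of_common hTt h1 (hg s hs).1 (hlv _) (hg s hs).2 (hδ x hxF)
  rw [hgs] at h2
  exact hxs' ((hlt _ _).2 (h2.trans (hg s' hs').1))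

end trees

/-! ### Continuous increasing rational sequences -/

section construction

variable {W : Type} [LinearOrder W]

/-- `l` is a limit point of the order `W`. -/
def Lim (l : W) : Prop := (∃ x, x < l) ∧ ∀ x < l, ∃ y < l, x < y

/-- Increasing continuous rational sequences of length `β + 1`, starting with `0`. -/
structure Good (β : W) (s : W → ℚ) : Prop where
  bot : ∀ b, (∀ x, b ≤ x) → s b = 0
  mono : ∀ x y, x < y → y ≤ β → s x < s y
  cont : ∀ l ≤ β, Lim l → ∀ q < s l, ∃ x < l, q < s x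
  const : ∀ x, β ≤ x → s x = s β

/-- Nodes of the big tree. -/
@[ext]
structure Node (W : Type) [LinearOrder W] where
  lev : W
  fn : W → ℚ
  good : Good lev fn

theorem Node.eq_of {x y : Node W} (h : x.lev = y.lev) (h' : ∀ ξ ≤ x.lev, x.fn ξ = y.fn ξ) :
    x = y := by
  apply Node.ext h
  funext ξ
  rcases le_total ξ x.lev with h1 | h1
  · exact h' ξ h1
  · rw [x.good.const ξ h1, y.good.const ξ (h ▸ h1), h' _ le_rfl, h]

instance : PartialOrder (Node W) where
  le x y := x.lev ≤ y.lev ∧ ∀ ξ ≤ x.lev, x.fn ξ = y.fn ξ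
  le_refl x := ⟨le_rfl, fun _ _ => rfl⟩
  le_trans x y z h h' := ⟨h.1.trans h'.1, fun ξ hξ => (h.2 ξ hξ).trans (h'.2 ξ (hξ.trans h.1))⟩
  le_antisymm x y h h' := Node.eq_of (le_antisymm h.1 h'.1) h.2

theorem Node.le_def {x y : Node W} : x ≤ y ↔ x.lev ≤ y.lev ∧ ∀ ξ ≤ x.lev, x.fn ξ = y.fn ξ :=
  Iff.rfl

theorem Node.lt_iff {x y : Node W} :
    x < y ↔ x.lev < y.lev ∧ ∀ ξ ≤ x.lev, x.fn ξ = y.fn ξ := by
  constructor
  · intro h
    refine ⟨lt_of_le_of_ne h.le.1 fun he => h.ne (Node.eq_of he h.le.2), h.le.2⟩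
  · intro h
    refine lt_of_le_of_ne ⟨h.1.le, h.2⟩ fun he => ?_
    rw [he] at h
    exact h.1.false

/-- The last value of a node. -/
def Node.val (x : Node W) : ℚ := x.fn x.lev

theorem Node.val_lt {x y : Node W} (h : x < y) : x.val < y.val := by
  rw [Node.lt_iff] at h
  unfold Node.val
  rw [h.2 _ le_rfl]
  exact y.good.mono _ _ h.1 le_rfl

/-- Restriction of a node to a lower level. -/
def Node.restr (x : Node W) (β : W) : Node W where
  lev := min x.lev β
  fn ξ := x.fn (min ξ β)
  good := by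
    refine ⟨?_, ?_, ?_, ?_⟩
    · intro b hb
      rw [min_eq_left (hb β)]
      exact x.good.bot b hb
    · intro ξ ζ h1 h2
      have h3 : ζ ≤ β := h2.trans (min_le_right _ _)
      have h4 : ζ ≤ x.lev := h2.trans (min_le_left _ _)
      rw [min_eq_left h3, min_eq_left (h1.le.trans h3)]
      exact x.good.mono _ _ h1 h4
    · intro l hl hlim q hq
      have h3 : l ≤ β := hl.trans (min_le_right _ _)
      have h4 : l ≤ x.lev := hl.trans (min_le_left _ _)
      rw [min_eq_left h3] at hq
      obtain ⟨ξ, hξ, hq'⟩ := x.good.cont l h4 hlim q hq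
      refine ⟨ξ, hξ, ?_⟩
      rw [min_eq_left (hξ.le.trans h3)]
      exact hq'
    · intro ξ hξ
      rcases le_total x.lev β with h | h
      · rw [min_eq_left h] at hξ ⊢
        rw [min_eq_left h]
        exact x.good.const _ (le_min hξ h)
      · rw [min_eq_right h] at hξ ⊢
        rw [min_eq_right hξ, min_self]

theorem Node.restr_lev (x : Node W) (β : W) : (x.restr β).lev = min x.lev β := rfl

theorem Node.restr_le (x : Node W) (β : W) : x.restr β ≤ x := by
  refine ⟨min_le_left _ _, fun ξ hξ => ?_⟩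
  have : ξ ≤ β := hξ.trans (min_le_right _ _)
  change x.fn (min ξ β) = x.fn ξ
  rw [min_eq_left this]

theorem Node.eq_restr {x y : Node W} (h : x ≤ y) : x = y.restr x.lev := by
  apply Node.eq_of
  · rw [Node.restr_lev, min_eq_right h.1]
  · intro ξ hξ
    change x.fn ξ = y.fn (min ξ x.lev)
    rw [min_eq_left hξ]
    exact h.2 ξ hξ

theorem Node.restr_restr (x : Node W) (β γ : W) : (x.restr β).restr γ = x.restr (min β γ) := by
  apply Node.eq_of
  · change min (min x.lev β) γ = min x.lev (min β γ)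
    rw [min_assoc]
  · intro ξ _
    change x.fn (min (min ξ γ) β) = x.fn (min ξ (min β γ))
    rw [min_assoc, min_comm γ β]

theorem Node.restr_of_le (x : Node W) {β : W} (h : x.lev ≤ β) : x.restr β = x := by
  apply Node.eq_of
  · change min x.lev β = x.lev
    exact min_eq_left h
  · intro ξ hξ
    change x.fn (min ξ β) = x.fn ξ
    have : ξ ≤ x.lev := hξ.trans (min_le_left _ _)
    rw [min_eq_left (this.trans h)]

theorem Node.comparable {x y z : Node W} (hx : x ≤ z) (hy : y ≤ z) (h : x.lev ≤ y.lev) :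
    x ≤ y := ⟨h, fun ξ hξ => (hx.2 ξ hξ).trans (hy.2 ξ (hξ.trans h)).symm⟩

/-- One-step extension past a level `δ` whose immediate successor is `γ`. -/
theorem ext_succ {δ γ : W} (hδγ : δ < γ) (hsucc : ∀ ξ < γ, ξ ≤ δ) (y : Node W) (hy : y.lev = δ)
    (b : ℚ) (hb : y.val < b) : ∃ z : Node W, y ≤ z ∧ z.lev = γ ∧ z.val = b := by
  classical
  let f : W → ℚ := fun ξ => if ξ < γ then y.fn ξ else b
  have hf1 : ∀ ξ < γ, f ξ = y.fn ξ := fun ξ h => if_pos h
  have hf2 : ∀ ξ, γ ≤ ξ → f ξ = b := fun ξ h => if_neg (not_lt.2 h)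
  have hb' : y.fn δ < b := by
    have : y.val = y.fn δ := by unfold Node.val; rw [hy]
    rwa [this] at hb
  have hgood : Good γ f := by
    refine ⟨?_, ?_, ?_, ?_⟩
    · intro c hc
      rw [hf1 c ((hc δ).trans_lt hδγ)]
      exact y.good.bot c hc
    · intro ξ ζ h1 h2
      have h3 : ξ < γ := h1.trans_le h2
      rw [hf1 ξ h3]
      rcases h2.lt_or_eq with h4 | h4
      · rw [hf1 ζ h4]
        exact y.good.mono _ _ h1 (by rw [hy]; exact hsucc ζ h4)
      · rw [hf2 ζ h4.ge]
        rcases (hsucc ξ h3).lt_or_eq with h5 | h5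
        · exact (y.good.mono ξ δ h5 hy.ge).trans hb'
        · rw [h5]; exact hb'
    · intro l hl hlim q hq
      rcases hl.lt_or_eq with h4 | h4
      · rw [hf1 l h4] at hq
        obtain ⟨ξ, hξ, hq'⟩ := y.good.cont l (by rw [hy]; exact hsucc l h4) hlim q hq
        exact ⟨ξ, hξ, by rw [hf1 ξ (hξ.trans h4)]; exact hq'⟩
      · exfalso
        subst h4
        obtain ⟨ζ, hζ, hδζ⟩ := hlim.2 δ hδγ
        exact absurd (hsucc ζ hζ) (not_le.2 hδζ)
    · intro ξ hξ
      rw [hf2 ξ hξ, hf2 γ le_rfl]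
  refine ⟨⟨γ, f, hgood⟩, ⟨?_, ?_⟩, rfl, hf2 γ le_rfl⟩
  · change y.lev ≤ γ
    rw [hy]; exact hδγ.le
  · intro ξ hξ
    rw [hy] at hξ
    exact (hf1 ξ (hξ.trans_lt hδγ)).symm

/-- Extension to a limit level. -/
theorem ext_lim {γ : W} (hγ : Lim γ) (hc : (Set.Iio γ).Countable)
    (ih : ∀ δ < γ, ∀ x : Node W, x.lev < δ → ∀ b : ℚ, x.val < b →
      ∃ y : Node W, x ≤ y ∧ y.lev = δ ∧ y.val = b)
    (x : Node W) (hx : x.lev < γ) (b : ℚ) (hb : x.val < b) :
    ∃ y : Node W, x ≤ y ∧ y.lev = γ ∧ y.val = b := by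
  classical
  obtain ⟨e, he⟩ := hc.exists_eq_range ⟨x.lev, hx⟩
  have heγ : ∀ n, e n < γ := fun n => by
    have : e n ∈ Set.Iio γ := by rw [he]; exact ⟨n, rfl⟩
    exact this
  have hstep : ∀ n : ℕ, ∀ y : {y : Node W // y.lev < γ ∧ y.val < b},
      ∃ z : {y : Node W // y.lev < γ ∧ y.val < b}, y.1 ≤ z.1 ∧ e n ≤ z.1.lev ∧
        b - 1 / ((n : ℚ) + 1) ≤ z.1.val := by
    intro n y
    obtain ⟨δ, hδγ, hδ⟩ := hγ.2 (max y.1.lev (e n)) (max_lt y.2.1 (heγ n))
    have hn : (0 : ℚ) < 1 / ((n : ℚ) + 1) := by positivity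
    let c : ℚ := max ((y.1.val + b) / 2) (b - 1 / ((n : ℚ) + 1))
    have hc1 : y.1.val < c := lt_of_lt_of_le (by linarith [y.2.2]) (le_max_left _ _)
    have hc2 : c < b := max_lt (by linarith [y.2.2]) (by linarith)
    obtain ⟨z, hz1, hz2, hz3⟩ := ih δ hδγ y.1 ((le_max_left _ _).trans_lt hδ) c hc1
    refine ⟨⟨z, by rw [hz2]; exact hδγ, by rw [hz3]; exact hc2⟩, hz1, ?_, ?_⟩
    · change e n ≤ z.lev
      rw [hz2]
      exact ((le_max_right _ _).trans_lt hδ).le
    · change _ ≤ z.val
      rw [hz3]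
      exact le_max_right _ _
  choose F hF1 hF2 hF3 using hstep
  let Y : ℕ → {y : Node W // y.lev < γ ∧ y.val < b} := fun n =>
    Nat.rec ⟨x, hx, hb⟩ (fun n y => F n y) n
  have hY0 : Y 0 = ⟨x, hx, hb⟩ := rfl
  have hYs : ∀ n, Y (n + 1) = F n (Y n) := fun n => rfl
  have hmono : Monotone fun n => (Y n).1 := by
    apply monotone_nat_of_le_succ
    intro n
    rw [hYs]
    exact hF1 n (Y n)
  have hcov : ∀ ξ < γ, ∃ n, ξ ≤ (Y n).1.lev := by
    intro ξ hξ
    have : ξ ∈ Set.range e := by rw [← he]; exact hξ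
    obtain ⟨n, rfl⟩ := this
    exact ⟨n + 1, by rw [hYs]; exact hF2 n (Y n)⟩
  have hcoh : ∀ n m ξ, ξ ≤ (Y n).1.lev → ξ ≤ (Y m).1.lev → (Y n).1.fn ξ = (Y m).1.fn ξ := by
    intro n m ξ hn hm
    rcases le_total n m with h | h
    · exact (hmono h).2 ξ hn
    · exact ((hmono h).2 ξ hm).symm
  let f : W → ℚ := fun ξ => if h : ∃ n, ξ ≤ (Y n).1.lev then (Y h.choose).1.fn ξ else b
  have hf1 : ∀ n ξ, ξ ≤ (Y n).1.lev → f ξ = (Y n).1.fn ξ := by
    intro n ξ h
    have h' : ∃ n, ξ ≤ (Y n).1.lev := ⟨n, h⟩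
    change (if h : ∃ n, ξ ≤ (Y n).1.lev then (Y h.choose).1.fn ξ else b) = _
    rw [dif_pos h']
    exact hcoh _ _ _ h'.choose_spec h
  have hf2 : ∀ ξ, γ ≤ ξ → f ξ = b := by
    intro ξ h
    apply dif_neg
    rintro ⟨n, hn⟩
    exact absurd ((h.trans hn).trans_lt (Y n).2.1) (lt_irrefl _)
  have hgood : Good γ f := by
    refine ⟨?_, ?_, ?_, ?_⟩
    · intro c hc
      rw [hf1 0 c (hc _)]
      exact (Y 0).1.good.bot c hc
    · intro ξ ζ h1 h2
      obtain ⟨n, hn⟩ := hcov ξ (h1.trans_le h2)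
      rcases h2.lt_or_eq with h4 | h4
      · obtain ⟨m, hm⟩ := hcov ζ h4
        rw [hf1 m ζ hm, hf1 m ξ (h1.le.trans hm)]
        exact (Y m).1.good.mono _ _ h1 hm
      · rw [hf2 ζ h4.ge, hf1 n ξ hn]
        refine lt_of_le_of_lt ?_ (Y n).2.2
        unfold Node.val
        rcases hn.lt_or_eq with h5 | h5
        · exact ((Y n).1.good.mono _ _ h5 le_rfl).le
        · rw [h5]
    · intro l hl hlim q hq
      rcases hl.lt_or_eq with h4 | h4
      · obtain ⟨m, hm⟩ := hcov l h4
        rw [hf1 m l hm] at hq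
        obtain ⟨ξ, hξ, hq'⟩ := (Y m).1.good.cont l hm hlim q hq
        exact ⟨ξ, hξ, by rw [hf1 m ξ (hξ.le.trans hm)]; exact hq'⟩
      · rw [hf2 l h4.ge] at hq
        obtain ⟨n, hn⟩ := exists_nat_one_div_lt (show (0 : ℚ) < b - q by linarith)
        refine ⟨(Y (n + 1)).1.lev, by rw [h4]; exact (Y (n + 1)).2.1, ?_⟩
        rw [hf1 (n + 1) _ le_rfl]
        have := hF3 n (Y n)
        rw [← hYs] at this
        unfold Node.val at this
        linarith
    · intro ξ hξ
      rw [hf2 ξ hξ, hf2 γ le_rfl]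
  refine ⟨⟨γ, f, hgood⟩, ⟨hx.le, ?_⟩, rfl, hf2 γ le_rfl⟩
  intro ξ hξ
  exact (hf1 0 ξ hξ).symm

theorem ext_all [WellFoundedLT W] (hW : ∀ γ : W, (Set.Iio γ).Countable) :
    ∀ γ : W, ∀ x : Node W, x.lev < γ → ∀ b : ℚ, x.val < b →
      ∃ y : Node W, x ≤ y ∧ y.lev = γ ∧ y.val = b := by
  intro γ
  induction γ using WellFoundedLT.induction with
  | ind γ ih =>
    intro x hx b hb
    by_cases hγ : Lim γ
    · exact ext_lim hγ (hW γ) ih x hx b hb
    · have : ∃ δ < γ, ∀ ξ < γ, ξ ≤ δ := by
        by_contra hcon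
        push Not at hcon
        exact hγ ⟨⟨_, hx⟩, fun δ hδ => hcon δ hδ⟩
      obtain ⟨δ, hδγ, hδ⟩ := this
      rcases (hδ _ hx).lt_or_eq with h | h
      · obtain ⟨y, hy1, hy2, hy3⟩ := ih δ hδγ x h ((x.val + b) / 2) (by linarith)
        obtain ⟨z, hz1, hz2, hz3⟩ := ext_succ hδγ hδ y hy2 b (by rw [hy3]; linarith)
        exact ⟨z, hy1.trans hz1, hz2, hz3⟩
      · exact ext_succ hδγ hδ x h b hb

end construction

/-! ### The tree -/

section final

/-- The index type: a well-order of type `ω₁`. -/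
abbrev Wt : Type := (ω₁ : Ordinal.{0}).ToType

/-- The ordinal of an element of the index type. -/
noncomputable def rk (w : Wt) : Ordinal.{0} := typein (α := Wt) (· < ·) w

theorem rk_lt (w : Wt) : rk w < ω₁ := typein_lt_self w

theorem rk_lt_rk {w w' : Wt} : rk w < rk w' ↔ w < w' := typein_lt_typein _

theorem rk_inj {w w' : Wt} (h : rk w = rk w') : w = w' := by
  rcases lt_trichotomy w w' with h1 | h1 | h1
  · exact absurd (rk_lt_rk.2 h1) (by rw [h]; exact lt_irrefl _)
  · exact h1
  · exact absurd (rk_lt_rk.2 h1) (by rw [h]; exact lt_irrefl _)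

theorem rk_surj {α : Ordinal.{0}} (h : α < ω₁) : ∃ w : Wt, rk w = α := by
  refine ⟨enum (α := Wt) (· < ·) ⟨α, by rw [type_toType]; exact h⟩, ?_⟩
  exact typein_enum _ _

theorem rk_le_rk {w w' : Wt} : rk w ≤ rk w' ↔ w ≤ w' := by
  rw [← not_lt, ← not_lt, rk_lt_rk]

theorem countable_Iio_Wt (γ : Wt) : (Set.Iio γ).Countable := by
  have h1 := countable_Iio_of_lt (rk_lt γ)
  have h2 : Set.Iio γ = rk ⁻¹' (Set.Iio (rk γ)) := by
    ext x
    simp [rk_lt_rk]
  rw [h2]
  exact h1.preimage (fun _ _ => rk_inj)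

/-- The least element of the index type. -/
noncomputable def w0 : Wt := (rk_surj (α := 0) (Ordinal.omega_pos 1)).choose

theorem rk_w0 : rk w0 = 0 := (rk_surj (α := 0) (Ordinal.omega_pos 1)).choose_spec

theorem w0_le (w : Wt) : w0 ≤ w := by
  rw [← rk_le_rk, rk_w0]
  exact bot_le

/-- The element of rank `ω`. -/
noncomputable def wω : Wt := (rk_surj Ordinal.omega0_lt_omega_one).choose

theorem rk_wω : rk wω = ω := (rk_surj Ordinal.omega0_lt_omega_one).choose_spec

/-- The root. -/
noncomputable def root : Node Wt where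
  lev := w0
  fn _ := 0
  good := by
    refine ⟨fun _ _ => rfl, ?_, ?_, fun _ _ => rfl⟩
    · intro ξ ζ h1 h2
      exact absurd (h1.trans_le h2) (not_lt.2 (w0_le ξ))
    · intro l hl hlim
      obtain ⟨x, hx⟩ := hlim.1
      exact absurd (hx.trans_le hl) (not_lt.2 (w0_le x))

theorem root_unique (x : Node Wt) (h : x.lev = w0) : x = root := by
  apply Node.eq_of
  · exact h
  · intro ξ hξ
    rw [h] at hξ
    exact x.good.bot ξ (fun y => hξ.trans (w0_le y))

/-- The sequences used on level `ω`. -/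
def qs (j : ℕ → Bool) : ℕ → ℚ
  | 0 => 0
  | n + 1 => 1 - (1 / 2) ^ (n + 1) * (if j n then 3 / 4 else 1)

theorem coef_bounds (b : Bool) : (3 / 4 : ℚ) ≤ (if b then 3 / 4 else 1) ∧
    (if b then 3 / 4 else 1 : ℚ) ≤ 1 := by
  cases b <;> norm_num

theorem qs_succ_lt (j : ℕ → Bool) (n : ℕ) : qs j n < qs j (n + 1) := by
  cases n with
  | zero =>
    have h := coef_bounds (j 0)
    change (0 : ℚ) < 1 - (1 / 2) ^ (0 + 1) * (if j 0 then 3 / 4 else 1)
    rw [zero_add, pow_one]
    linarith [h.2]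
  | succ n =>
    have h := coef_bounds (j n)
    have h' := coef_bounds (j (n + 1))
    change 1 - (1 / 2) ^ (n + 1) * (if j n then 3 / 4 else 1 : ℚ) <
      1 - (1 / 2) ^ (n + 1 + 1) * (if j (n + 1) then 3 / 4 else 1)
    have hp : (0 : ℚ) < (1 / 2) ^ (n + 1) := by positivity
    rw [pow_succ (1 / 2 : ℚ) (n + 1)]
    nlinarith

theorem qs_strictMono (j : ℕ → Bool) : StrictMono (qs j) := strictMono_nat_of_lt_succ (qs_succ_lt j)

theorem qs_lt_one (j : ℕ → Bool) (n : ℕ) : qs j n < 1 := by
  cases n with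
  | zero => exact zero_lt_one
  | succ n =>
    have h := coef_bounds (j n)
    have hp : (0 : ℚ) < (1 / 2) ^ (n + 1) := by positivity
    change 1 - (1 / 2) ^ (n + 1) * (if j n then 3 / 4 else 1 : ℚ) < 1
    nlinarith

theorem qs_tendsto (j : ℕ → Bool) (q : ℚ) (hq : q < 1) : ∃ n, q < qs j n := by
  obtain ⟨n, hn⟩ := exists_pow_lt_of_lt_one (show (0 : ℚ) < 1 - q by linarith)
    (show (1 / 2 : ℚ) < 1 by norm_num)
  refine ⟨n + 1, ?_⟩
  have h := coef_bounds (j n)
  have hp : (0 : ℚ) < (1 / 2) ^ n := by positivity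
  change q < 1 - (1 / 2) ^ (n + 1) * (if j n then 3 / 4 else 1 : ℚ)
  rw [pow_succ]
  nlinarith

theorem qs_injective {j j' : ℕ → Bool} (h : ∀ n, qs j n = qs j' n) : j = j' := by
  funext n
  have h1 := h (n + 1)
  change 1 - (1 / 2) ^ (n + 1) * (if j n then 3 / 4 else 1 : ℚ) =
    1 - (1 / 2) ^ (n + 1) * (if j' n then 3 / 4 else 1) at h1
  have hp : (0 : ℚ) < (1 / 2) ^ (n + 1) := by positivity
  have h2 : (if j n then 3 / 4 else 1 : ℚ) = (if j' n then 3 / 4 else 1) := by
    have : ((1 : ℚ) / 2) ^ (n + 1) * (if j n then 3 / 4 else 1 : ℚ) =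
      (1 / 2) ^ (n + 1) * (if j' n then 3 / 4 else 1) := by linarith
    exact mul_left_cancel₀ hp.ne' this
  cases hj : j n <;> cases hj' : j' n <;> simp [hj, hj'] at h2 ⊢ <;> norm_num at h2

/-- The function of the node of level `ω` coded by `j`. -/
noncomputable def zf (j : ℕ → Bool) (ξ : Wt) : ℚ :=
  open Classical in if h : ∃ n : ℕ, rk ξ = n then qs j h.choose else 1

theorem zf_nat (j : ℕ → Bool) {ξ : Wt} {n : ℕ} (h : rk ξ = n) : zf j ξ = qs j n := by
  classical
  have h' : ∃ n : ℕ, rk ξ = n := ⟨n, h⟩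
  unfold zf
  rw [dif_pos h']
  have h2 : rk ξ = (h'.choose : ℕ) := h'.choose_spec
  have h3 : n = h'.choose := by exact_mod_cast h.symm.trans h2
  rw [← h3]

theorem zf_big (j : ℕ → Bool) {ξ : Wt} (h : wω ≤ ξ) : zf j ξ = 1 := by
  classical
  apply dif_neg
  rintro ⟨n, hn⟩
  rw [← rk_le_rk, rk_wω, hn] at h
  exact absurd h (not_le.2 (Ordinal.natCast_lt_omega0 n))

theorem nat_of_lt {ξ : Wt} (h : ξ < wω) : ∃ n : ℕ, rk ξ = n := by
  rw [← rk_lt_rk, rk_wω] at h
  exact Ordinal.lt_omega0.1 h

theorem natCast_lt_omega_one (n : ℕ) : (n : Ordinal.{0}) < ω₁ :=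
  (Ordinal.natCast_lt_omega0 n).trans Ordinal.omega0_lt_omega_one

theorem zf_good (j : ℕ → Bool) : Good wω (zf j) := by
  refine ⟨?_, ?_, ?_, ?_⟩
  · intro b hb
    have : rk b = (0 : ℕ) := by
      have h1 : b = w0 := le_antisymm (hb w0) (w0_le b)
      rw [h1, rk_w0]; simp
    rw [zf_nat j this]
    rfl
  · intro ξ ζ h1 h2
    obtain ⟨n, hn⟩ := nat_of_lt (h1.trans_le h2)
    rw [zf_nat j hn]
    rcases h2.lt_or_eq with h3 | h3
    · obtain ⟨m, hm⟩ := nat_of_lt h3
      rw [zf_nat j hm]
      apply qs_strictMono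
      rw [← rk_lt_rk, hn, hm] at h1
      exact_mod_cast h1
    · rw [zf_big j h3.ge]
      exact qs_lt_one j n
  · intro l hl hlim q hq
    rcases hl.lt_or_eq with h3 | h3
    · exfalso
      obtain ⟨n, hn⟩ := nat_of_lt h3
      cases n with
      | zero =>
        obtain ⟨x, hx⟩ := hlim.1
        rw [← rk_lt_rk, hn] at hx
        simp at hx
      | succ n =>
        obtain ⟨δ, hδ⟩ := rk_surj (natCast_lt_omega_one n)
        have h4 : δ < l := by
          rw [← rk_lt_rk, hδ, hn]
          exact_mod_cast Nat.lt_succ_self n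
        obtain ⟨y, hy1, hy2⟩ := hlim.2 δ h4
        obtain ⟨m, hm⟩ := nat_of_lt (hy1.trans h3)
        rw [← rk_lt_rk, hm, hn] at hy1
        rw [← rk_lt_rk, hm, hδ] at hy2
        have h5 : m < n + 1 := by exact_mod_cast hy1
        have h6 : n < m := by exact_mod_cast hy2
        omega
    · rw [zf_big j h3.ge] at hq
      obtain ⟨n, hn⟩ := qs_tendsto j q hq
      obtain ⟨δ, hδ⟩ := rk_surj (natCast_lt_omega_one n)
      refine ⟨δ, ?_, by rw [zf_nat j hδ]; exact hn⟩
      rw [h3, ← rk_lt_rk, rk_wω, hδ]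
      exact Ordinal.natCast_lt_omega0 n
  · intro ξ hξ
    rw [zf_big j hξ, zf_big j le_rfl]

/-- The node of level `ω` coded by `j`. -/
noncomputable def zn (j : ℕ → Bool) : Node Wt := ⟨wω, zf j, zf_good j⟩

theorem zn_injective : Function.Injective zn := by
  intro j j' h
  apply qs_injective
  intro n
  obtain ⟨δ, hδ⟩ := rk_surj (natCast_lt_omega_one n)
  have h1 : (zn j).fn δ = (zn j').fn δ := by rw [h]
  change zf j δ = zf j' δ at h1
  rwa [zf_nat j hδ, zf_nat j' hδ] at h1

theorem mk_Wt : #Wt = ℵ₁ := by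
  rw [Wt, Cardinal.mk_toType]
  simp

theorem exists_code : ∃ c : Wt → (ℕ → Bool), Function.Injective c := by
  have h1 : #Wt ≤ #(ℕ → Bool) := by
    rw [mk_Wt]
    have h2 : #(ℕ → Bool) = 𝔠 := by simp
    rw [h2, ← Cardinal.succ_aleph0]
    exact Order.succ_le_of_lt Cardinal.aleph0_lt_continuum
  obtain ⟨f⟩ := h1
  exact ⟨f, f.injective⟩

/-- An injection of the index type into the reals. -/
noncomputable def code : Wt → (ℕ → Bool) := exists_code.choose

theorem code_injective : Function.Injective code := exists_code.choose_spec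

theorem exists_ext (x : Node Wt) (γ : Wt) (h : x.lev ≤ γ) : ∃ y : Node Wt, x ≤ y ∧ y.lev = γ := by
  rcases h.lt_or_eq with h1 | h1
  · obtain ⟨y, hy, hy', _⟩ := ext_all countable_Iio_Wt γ x h1 (x.val + 1) (by linarith)
    exact ⟨y, hy, hy'⟩
  · exact ⟨x, le_rfl, h1⟩

/-- A chosen extension of `x` to level `γ` (and `x` itself if its level is at least `γ`). -/
noncomputable def E (x : Node Wt) (γ : Wt) : Node Wt :=
  open Classical in if h : x.lev < γ then (exists_ext x γ h.le).choose else x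

theorem le_E (x : Node Wt) (γ : Wt) : x ≤ E x γ := by
  classical
  unfold E
  split_ifs with h
  · exact (exists_ext x γ h.le).choose_spec.1
  · exact le_rfl

theorem E_lev (x : Node Wt) (γ : Wt) (h : x.lev ≤ γ) : (E x γ).lev = γ := by
  classical
  unfold E
  split_ifs with h'
  · exact (exists_ext x γ h'.le).choose_spec.2
  · exact le_antisymm h (not_lt.1 h')

theorem E_self (x : Node Wt) : E x x.lev = x := by
  classical
  unfold E
  rw [dif_neg (lt_irrefl _)]

/-- One step of the closure. -/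
noncomputable def step (x : Node Wt) (p : Wt × Wt) : Node Wt := (E x p.1).restr p.2

/-- The starting nodes. -/
noncomputable def start : Option Wt → Node Wt
  | none => root
  | some w => zn (code w)

/-- The nodes of the tree. -/
noncomputable def build (p : Option Wt × List (Wt × Wt)) : Node Wt :=
  p.2.foldl step (start p.1)

theorem step_build (p : Option Wt × List (Wt × Wt)) (q : Wt × Wt) :
    step (build p) q = build (p.1, p.2 ++ [q]) := by
  unfold build
  rw [List.foldl_append]
  rfl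

/-- The tree. -/
def S : Type := {x : Node Wt // x ∈ Set.range build}

instance : PartialOrder S := inferInstanceAs (PartialOrder {x : Node Wt // x ∈ Set.range build})

theorem S_lt {x y : S} : x < y ↔ x.1 < y.1 := Iff.rfl

theorem S_le {x y : S} : x ≤ y ↔ x.1 ≤ y.1 := Iff.rfl

/-- Restriction in the tree. -/
noncomputable def Srestr (x : S) (β : Wt) : S := ⟨x.1.restr β, by
  obtain ⟨p, hp⟩ := x.2
  refine ⟨(p.1, p.2 ++ [(x.1.lev, β)]), ?_⟩
  rw [← step_build, hp]
  unfold step
  rw [E_self]⟩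

/-- Extension in the tree. -/
noncomputable def Sext (x : S) (γ : Wt) : S := ⟨(E x.1 γ).restr γ, by
  obtain ⟨p, hp⟩ := x.2
  refine ⟨(p.1, p.2 ++ [(γ, γ)]), ?_⟩
  rw [← step_build, hp]
  rfl⟩

theorem Sext_le (x : S) {γ : Wt} (h : x.1.lev ≤ γ) : x ≤ Sext x γ := by
  change x.1 ≤ (E x.1 γ).restr γ
  rw [Node.restr_of_le _ (E_lev _ _ h).le]
  exact le_E _ _

theorem Sext_lev (x : S) {γ : Wt} (h : x.1.lev ≤ γ) : (Sext x γ).1.lev = γ := by
  change ((E x.1 γ).restr γ).lev = γ
  rw [Node.restr_lev, E_lev _ _ h, min_self]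

theorem mk_S : #S ≤ ℵ₁ := by
  have h1 : #S ≤ #(Option Wt × List (Wt × Wt)) := Cardinal.mk_range_le
  refine h1.trans ?_
  haveI : Infinite Wt := by
    rw [Cardinal.infinite_iff, mk_Wt]
    exact Cardinal.aleph0_le_aleph 1
  have h2 : #(Wt × Wt) = ℵ₁ := by
    rw [Cardinal.mk_prod, Cardinal.lift_id, mk_Wt]
    exact Cardinal.mul_eq_self (Cardinal.aleph0_le_aleph 1)
  have h3 : #(List (Wt × Wt)) = ℵ₁ := by
    rw [Cardinal.mk_list_eq_mk, h2]
  have h4 : #(Option Wt) = ℵ₁ := by
    rw [Cardinal.mk_option, mk_Wt]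
    exact Cardinal.add_eq_left (Cardinal.aleph0_le_aleph 1)
      (Cardinal.one_le_aleph0.trans (Cardinal.aleph0_le_aleph 1))
  rw [Cardinal.mk_prod, Cardinal.lift_id, Cardinal.lift_id, h3, h4]
  exact (Cardinal.mul_eq_self (Cardinal.aleph0_le_aleph 1)).le

theorem Srestr_lt (x : S) {β : Wt} (h : β < x.1.lev) : Srestr x β < x := by
  rw [S_lt, Node.lt_iff]
  refine ⟨?_, (x.1.restr_le β).2⟩
  change min x.1.lev β < x.1.lev
  rw [min_eq_right h.le]
  exact h

/-- The predecessors of a node of the tree are ordered as an initial segment of `Wt`. -/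
noncomputable def predIso (x : S) :
    (fun a b : {y : S // y < x} => a < b) ≃r
      (Subrel (fun a b : Wt => a < b) (fun b => b < x.1.lev)) where
  toFun y := ⟨y.1.1.lev, (Node.lt_iff.1 (S_lt.1 y.2)).1⟩
  invFun b := ⟨Srestr x b.1, Srestr_lt x b.2⟩
  left_inv y := by
    apply Subtype.ext
    apply Subtype.ext
    exact (Node.eq_restr (S_lt.1 y.2).le).symm
  right_inv b := by
    apply Subtype.ext
    change min x.1.lev b.1 = b.1
    exact min_eq_right (le_of_lt b.2)
  map_rel_iff' := by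
    intro a b
    constructor
    · intro h
      have h1 : a.1.1.lev < b.1.1.lev := h
      have h2 : a.1.1 ≤ b.1.1 :=
        Node.comparable (S_lt.1 a.2).le (S_lt.1 b.2).le h1.le
      exact Node.lt_iff.2 ⟨h1, h2.2⟩
    · intro h
      exact (Node.lt_iff.1 (S_lt.1 h)).1

theorem S_isTree : IsTree S := fun x => (predIso x).toRelEmbedding.isWellOrder

theorem S_onLevel (x : S) : OnLevel x (rk x.1.lev) := by
  refine ⟨S_isTree x, ?_⟩
  haveI := S_isTree x
  have h1 : rk x.1.lev = Ordinal.type (Subrel (fun a b : Wt => a < b) (fun b => b < x.1.lev)) :=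
    (type_subrel (fun a b : Wt => a < b) x.1.lev).symm
  rw [h1]
  exact Ordinal.type_eq.2 ⟨predIso x⟩

theorem S_mem_level {x : S} {w : Wt} : x ∈ Level S (rk w) ↔ x.1.lev = w := by
  constructor
  · intro h
    exact rk_inj (onLevel_unique (S_onLevel x) h)
  · rintro rfl
    exact S_onLevel x

theorem S_level_big {α : Ordinal.{0}} (h : ω₁ ≤ α) : Level S α = ∅ := by
  ext x
  constructor
  · intro hx
    have h1 := onLevel_unique (S_onLevel x) hx
    exact absurd (h1 ▸ rk_lt x.1.lev) (not_lt.2 h)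
  · intro hx
    exact hx.elim

/-- The root of the tree. -/
noncomputable def Sroot : S := ⟨root, ⟨(none, []), rfl⟩⟩

theorem S_hasHeight : HasHeight S ω₁ := by
  refine ⟨S_level_big le_rfl, fun α hα => ?_⟩
  obtain ⟨w, rfl⟩ := rk_surj hα
  exact ⟨Sext Sroot w, S_mem_level.2 (Sext_lev _ (w0_le w))⟩

theorem S_normal : Normal S ω₁ := by
  refine ⟨⟨Sroot, ?_, ?_⟩, ?_, ?_⟩
  · have : Sroot ∈ Level S (rk w0) := S_mem_level.2 rfl
    rwa [rk_w0] at this
  · intro x hx
    rw [← rk_w0] at hx
    exact Subtype.ext (root_unique x.1 (S_mem_level.1 hx))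
  · intro x α hα
    obtain ⟨w, rfl⟩ := rk_surj hα
    rcases le_total w x.1.lev with h | h
    · refine ⟨Srestr x w, S_mem_level.2 ?_, Or.inl (x.1.restr_le w)⟩
      exact min_eq_right h
    · exact ⟨Sext x w, S_mem_level.2 (Sext_lev x h), Or.inr (Sext_le x h)⟩
  · intro α hα x hx y hy hxy
    by_contra hcon
    push Not at hcon
    apply hxy
    rcases lt_or_ge α ω₁ with hlt | hge
    · obtain ⟨w, rfl⟩ := rk_surj hlt
      have hxw := S_mem_level.1 hx
      have hyw := S_mem_level.1 hy
      have hagree : ∀ ξ < w, x.1.fn ξ = y.1.fn ξ := by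
        intro ξ hξ
        have h1 : Srestr x ξ = Srestr y ξ := by
          apply hcon (rk ξ) (rk_lt_rk.2 hξ) _ (S_mem_level.2 ?_) _ (S_mem_level.2 ?_)
            (x.1.restr_le ξ) (y.1.restr_le ξ)
          · change min x.1.lev ξ = ξ
            rw [hxw]; exact min_eq_right hξ.le
          · change min y.1.lev ξ = ξ
            rw [hyw]; exact min_eq_right hξ.le
        have h2 : (x.1.restr ξ).fn ξ = (y.1.restr ξ).fn ξ := by
          rw [show x.1.restr ξ = y.1.restr ξ from congrArg Subtype.val h1]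
        change x.1.fn (min ξ ξ) = y.1.fn (min ξ ξ) at h2
        rwa [min_self] at h2
      have hlim : Lim w := by
        constructor
        · by_contra hc
          push Not at hc
          have h3 : w = w0 := le_antisymm (hc w0) (w0_le w)
          rw [h3, rk_w0] at hα
          exact hα.ne_bot rfl
        · intro ξ hξ
          have h4 := hα.succ_lt (rk_lt_rk.2 hξ)
          obtain ⟨ζ, hζ⟩ := rk_surj (h4.trans hlt)
          refine ⟨ζ, ?_, ?_⟩
          · rw [← rk_lt_rk, hζ]; exact h4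
          · rw [← rk_lt_rk, hζ]; exact Order.lt_succ _
      have key : ∀ a b : S, a.1.lev = w → b.1.lev = w → (∀ ξ < w, a.1.fn ξ = b.1.fn ξ) →
          ¬ a.1.fn w < b.1.fn w := by
        intro a b ha hb hab hlt'
        obtain ⟨ξ, hξ, hq⟩ := b.1.good.cont w hb.ge hlim _ hlt'
        rw [← hab ξ hξ] at hq
        exact absurd (a.1.good.mono ξ w hξ ha.ge) hq.asymm
      have heq : x.1.fn w = y.1.fn w := by
        rcases lt_trichotomy (x.1.fn w) (y.1.fn w) with h | h | h
        · exact absurd h (key x y hxw hyw hagree)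
        · exact h
        · exact absurd h (key y x hyw hxw fun ξ hξ => (hagree ξ hξ).symm)
      apply Subtype.ext
      apply Node.eq_of
      · rw [hxw, hyw]
      · intro ξ hξ
        rw [hxw] at hξ
        rcases hξ.lt_or_eq with h | h
        · exact hagree ξ h
        · rw [h]; exact heq
    · rw [S_level_big hge] at hx
      exact hx.elim

theorem S_val_lt {x y : S} (h : x < y) : x.1.val < y.1.val := Node.val_lt h

theorem S_special : Special S := by
  obtain ⟨f⟩ : Nonempty (ℕ ≃ ℚ) := nonempty_equiv_of_countable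
  refine ⟨fun n => {x | x.1.val = f n}, ?_, ?_⟩
  · intro n x hx y hy hxy hle
    have hlt := S_val_lt (lt_of_le_of_ne hle hxy)
    have hx' : x.1.val = f n := hx
    have hy' : y.1.val = f n := hy
    rw [hx', hy'] at hlt
    exact hlt.false
  · ext x
    simp only [Set.mem_iUnion, Set.mem_univ, iff_true]
    exact ⟨f.symm x.1.val, by simp⟩

theorem S_chain_countable {C : Set S} (hC : IsChain (· ≤ ·) C) : C.Countable := by
  have h : Set.InjOn (fun x : S => x.1.val) C := by
    intro x hx y hy hxy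
    by_contra hne
    rcases hC hx hy hne with h | h
    · exact (S_val_lt (lt_of_le_of_ne h hne)).ne hxy
    · exact (S_val_lt (lt_of_le_of_ne h (Ne.symm hne))).ne hxy.symm
  exact Set.countable_of_injective_of_countable_image h (Set.to_countable _)

theorem S_isWideAronszajn : IsWideAronszajn S := by
  refine ⟨S_isTree, S_hasHeight, S_normal, fun α => (Cardinal.mk_set_le _).trans mk_S, ?_⟩
  intro C hC hcard
  have h := S_chain_countable hC.1
  rw [← Cardinal.le_aleph0_iff_set_countable, hcard, ← Cardinal.succ_aleph0] at h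
  exact absurd h (not_le.2 (Order.lt_succ _))

/-- The nodes of level `ω` of the tree coded by reals. -/
noncomputable def Sz (w : Wt) : S := ⟨zn (code w), ⟨(some w, []), rfl⟩⟩

theorem Sz_injective : Function.Injective Sz := by
  intro w w' h
  exact code_injective (zn_injective (congrArg Subtype.val h))

theorem S_range_uncountable : ¬ (Set.range Sz).Countable := by
  intro h
  have h1 : (Set.univ : Set Wt).Countable := by
    rw [← Set.image_univ] at h
    exact Set.countable_of_injective_of_countable_image (fun _ _ _ _ hh => Sz_injective hh) h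
  rw [← Cardinal.le_aleph0_iff_set_countable, Cardinal.mk_univ, mk_Wt, ← Cardinal.succ_aleph0] at h1
  exact absurd h1 (not_le.2 (Order.lt_succ _))

theorem S_low_countable : {x : S | x.1.lev < wω}.Countable := by
  -- finite sequences of rationals
  let g : {x : S | x.1.lev < wω} → ℕ → ℚ := fun x n =>
    if h : (n : Ordinal.{0}) < ω₁ then x.1.1.fn (rk_surj h).choose else 0
  let c : {x : S | x.1.lev < wω} → List ℚ := fun x =>
    (List.range ((nat_of_lt x.2).choose + 1)).map (g x)
  have hc : Function.Injective c := by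
    intro x y hxy
    have hx := (nat_of_lt x.2).choose_spec
    have hy := (nat_of_lt y.2).choose_spec
    have hlen : (nat_of_lt x.2).choose = (nat_of_lt y.2).choose := by
      have := congrArg List.length hxy
      simpa [c] using this
    have hlev : x.1.1.lev = y.1.1.lev := by
      apply rk_inj
      rw [hx, hy, hlen]
    apply Subtype.ext
    apply Subtype.ext
    apply Node.eq_of hlev
    intro ξ hξ
    obtain ⟨n, hn⟩ := nat_of_lt (hξ.trans_lt x.2)
    have hnle : n ≤ (nat_of_lt x.2).choose := by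
      rw [← rk_le_rk, hn, hx] at hξ
      exact_mod_cast hξ
    have h1 : g x n = g y n := by
      have h2 := congrArg (fun l => l[n]?) hxy
      simp only [c, List.getElem?_map] at h2
      rw [List.getElem?_range (by omega), List.getElem?_range (by omega)] at h2
      simpa using h2
    have h3 : (rk_surj (natCast_lt_omega_one n)).choose = ξ := by
      apply rk_inj
      rw [(rk_surj (natCast_lt_omega_one n)).choose_spec, hn]
    simp only [g] at h1
    rw [dif_pos (natCast_lt_omega_one n), h3, dif_pos (natCast_lt_omega_one n), h3] at h1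
    exact h1
  exact Set.countable_coe_iff.1 hc.countable

theorem S_not_embeds (T : Type u) [PartialOrder T] (hT : IsOmegaOneTree T) : ¬ Embeds S T := by
  apply not_embeds hT {x : S | x.1.lev < wω} (Set.range Sz) S_low_countable S_range_uncountable
  rintro _ ⟨w, rfl⟩ _ ⟨w', rfl⟩ hne
  by_contra hcon
  push Not at hcon
  apply hne
  apply Subtype.ext
  change zn (code w) = zn (code w')
  congr 1
  apply qs_injective
  intro n
  obtain ⟨δ, hδ⟩ := rk_surj (natCast_lt_omega_one n)
  have hδω : δ < wω := by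
    rw [← rk_lt_rk, hδ, rk_wω]
    exact Ordinal.natCast_lt_omega0 n
  have h1 : Srestr (Sz w) δ < Sz w' := by
    apply hcon _ _ (Srestr_lt _ hδω)
    change min wω δ < wω
    rw [min_eq_right hδω.le]
    exact hδω
  have h2 := (Node.lt_iff.1 (S_lt.1 h1)).2 δ (le_min hδω.le le_rfl)
  change zf (code w) (min δ δ) = zf (code w') δ at h2
  rwa [min_self, zf_nat _ hδ, zf_nat _ hδ] at h2

theorem specializable_of_special (T : Type u) [PartialOrder T] (hT : Special T) :
    SpecializableWithoutReals T := by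
  obtain ⟨A, hA, hU⟩ := hT
  have hmem : ∀ t : T, ∃ n, t ∈ A n := by
    intro t
    have : t ∈ ⋃ n, A n := by rw [hU]; exact Set.mem_univ t
    simpa using this
  choose f hf using hmem
  have hmeet : ∀ (p : Unit) (D : Set Unit), FMeets p D ↔ D.Nonempty := by
    intro p D
    constructor
    · intro h
      obtain ⟨_, _, d, hd, _⟩ := h p le_rfl
      exact ⟨d, hd⟩
    · rintro ⟨d, hd⟩ q _
      exact ⟨q, le_rfl, d, hd, le_of_eq (Subsingleton.elim _ _)⟩
  have hmiss : ∀ (p : Unit) (D : Set Unit), FMisses p D ↔ ¬ D.Nonempty := by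
    intro p D
    constructor
    · rintro h ⟨d, hd⟩
      exact h p le_rfl ⟨d, hd, le_of_eq (Subsingleton.elim _ _)⟩
    · rintro h q _ ⟨d, hd, _⟩
      exact h ⟨d, hd⟩
  refine ⟨Unit, inferInstance, ⟨()⟩, ?_, ?_⟩
  · intro σ p
    refine ⟨p, le_rfl, {n | (σ n).Nonempty}, ?_, ?_⟩
    · intro n hn
      exact (hmeet _ _).2 hn
    · intro n hn
      exact (hmiss _ _).2 hn
  · refine ⟨fun t n => {p | f t = n}, ?_, ?_, ?_⟩
    · intro t p
      rw [hmeet]
      exact ⟨(), Set.mem_iUnion.2 ⟨f t, rfl⟩⟩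
    · intro t m n hmn p h1
      rw [hmeet] at h1
      rw [hmiss]
      rintro ⟨_, h2⟩
      obtain ⟨_, h1⟩ := h1
      exact hmn (h1.symm.trans h2)
    · intro s t hst n p h1
      rw [hmeet] at h1
      rw [hmiss]
      rintro ⟨_, h2⟩
      obtain ⟨_, h1⟩ := h1
      have h3 : s ∈ A n := by
        have := hf s
        rwa [show f s = n from h1] at this
      have h4 : t ∈ A n := by
        have := hf t
        rwa [show f t = n from h2] at this
      exact hA n h3 h4 hst.ne hst.le

end final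

theorem S_wide : ∃ α : Ordinal.{0}, ¬ (Level S α).Countable := by
  by_contra hcon
  push Not at hcon
  exact S_not_embeds S ⟨S_isTree, S_hasHeight, hcon⟩
    ⟨id, Function.injective_id, fun _ _ => Iff.rfl⟩

/-- **Main theorem (ZFC).**  There is an `(ω₁, ≤ ℵ₁)`-Aronszajn tree with an uncountable level which
is special, hence can be specialized without adding reals, but does not embed into any
`ω₁`-tree. -/
theorem result : ∃ (S : Type) (_ : PartialOrder S),
    IsWideAronszajn S ∧ (∃ α : Ordinal.{0}, ¬ (Level S α).Countable) ∧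
      Special S ∧ SpecializableWithoutReals S ∧
      ∀ (T : Type u) [PartialOrder T], IsOmegaOneTree T → ¬ Embeds S T :=
  ⟨S, inferInstance, S_isWideAronszajn, S_wide, S_special, specializable_of_special S S_special,
    fun T _ hT => S_not_embeds T hT⟩

end Pool.Agent.Results.MP_6e75db_lc.SpecialNotEmbeddable
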